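import Pool.Agent.Helper774.CSTS.Iso

set_option autoImplicit false

open Finset

namespace Pool.Agent.Helper774.CSTS

/-- A solution of the difference triple problem of Heffter for `n = 6k+1+2e`. -/
structure Heff (n k e : ℕ) (T : Finset (ℕ × ℕ)) : Prop where
  hn : n = 6 * k + 1 + 2 * e
  he : e ≤ 1
  hcard : T.card ≤ k
  cover : ∀ m, 1 ≤ m → 2 * m < n → (e = 1 ∧ 3 * m = n) ∨
    ∃ p ∈ T, m = p.1 ∨ m = p.2 ∨ m = p.1 + p.2 ∨ m + p.1 + p.2 = n

abbrev Q := {w : Fin 3 × Fin 3 // w.1 ≠ w.2}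

lemma card_Q : Fintype.card Q = 6 := by decide

section
variable {n k e : ℕ} {T : Finset (ℕ × ℕ)}

/-- the three points of a block -/
def pt (n : ℕ) {T : Finset (ℕ × ℕ)} (ε : T → Bool) (p : T) (z : ZMod n) : Fin 3 → ZMod n :=
  ![z, z + (if ε p then (p.1.1 : ZMod n) else (p.1.2 : ZMod n)), z + (p.1.1 : ZMod n) + (p.1.2 : ZMod n)]

/-- pairs of points in blocks -/
def F (n k e : ℕ) {T : Finset (ℕ × ℕ)} (ε : T → Bool) :
    (T × ZMod n × Q) ⊕ (Fin e × ZMod n × Bool) → ZMod n × ZMod n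
  | Sum.inl (p, z, w) => (pt n ε p z w.1.1, pt n ε p z w.1.2)
  | Sum.inr (_, z, s) => (z, if s then z + ((2 * k + 1 : ℕ) : ZMod n) else z - ((2 * k + 1 : ℕ) : ZMod n))

lemma F_exists [NeZero n] (h : Heff n k e T) (ε : T → Bool) (m : ℕ) (h1 : 1 ≤ m) (h2 : 2 * m < n)
    (x y : ZMod n) (hm : (m : ZMod n) = y - x) :
    (∃ j, F n k e ε j = (x, y)) ∧ ∃ j, F n k e ε j = (y, x) := by
  have hy : y = x + m := by rw [hm]; ring
  rcases h.cover m h1 h2 with ⟨he, h3⟩ | ⟨p, hp, hc⟩
  · have hk : m = 2 * k + 1 := by have := h.hn; omega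
    refine ⟨⟨Sum.inr (⟨0, by omega⟩, x, true), ?_⟩, ⟨Sum.inr (⟨0, by omega⟩, y, false), ?_⟩⟩
    · simp only [F, if_true, ← hk, hy]
    · have : y - (m : ZMod n) = x := by rw [hm]; ring
      simp only [F, ← hk]
      simp [this]
  · rcases hc with hc | hc | hc | hc
    · cases hε : ε ⟨p, hp⟩ with
      | true =>
        refine ⟨⟨Sum.inl (⟨p, hp⟩, x, ⟨(0, 1), by decide⟩), ?_⟩,
          ⟨Sum.inl (⟨p, hp⟩, x, ⟨(1, 0), by decide⟩), ?_⟩⟩ <;>
        · simp [F, pt, hε, hy, hc]
      | false =>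
        refine ⟨⟨Sum.inl (⟨p, hp⟩, x - p.2, ⟨(1, 2), by decide⟩), ?_⟩,
          ⟨Sum.inl (⟨p, hp⟩, x - p.2, ⟨(2, 1), by decide⟩), ?_⟩⟩ <;>
        · simp [F, pt, hε, hy, hc]
          try ring
    · cases hε : ε ⟨p, hp⟩ with
      | true =>
        refine ⟨⟨Sum.inl (⟨p, hp⟩, x - p.1, ⟨(1, 2), by decide⟩), ?_⟩,
          ⟨Sum.inl (⟨p, hp⟩, x - p.1, ⟨(2, 1), by decide⟩), ?_⟩⟩ <;>
        · simp [F, pt, hε, hy, hc]
      | false =>
        refine ⟨⟨Sum.inl (⟨p, hp⟩, x, ⟨(0, 1), by decide⟩), ?_⟩,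
          ⟨Sum.inl (⟨p, hp⟩, x, ⟨(1, 0), by decide⟩), ?_⟩⟩ <;>
        · simp [F, pt, hε, hy, hc]
    · refine ⟨⟨Sum.inl (⟨p, hp⟩, x, ⟨(0, 2), by decide⟩), ?_⟩,
          ⟨Sum.inl (⟨p, hp⟩, x, ⟨(2, 0), by decide⟩), ?_⟩⟩ <;>
      · simp [F, pt, hy, hc, add_assoc]
    · have hs : (m : ZMod n) + p.1 + p.2 = 0 := by
        have : ((m + p.1 + p.2 : ℕ) : ZMod n) = ((n : ℕ) : ZMod n) := by rw [hc]
        push_cast at this
        rw [this]
        exact ZMod.natCast_self n
      have hx : y + (p.1 : ZMod n) + p.2 = x := by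
        rw [hy]
        linear_combination hs
      refine ⟨⟨Sum.inl (⟨p, hp⟩, y, ⟨(2, 0), by decide⟩), ?_⟩,
          ⟨Sum.inl (⟨p, hp⟩, y, ⟨(0, 2), by decide⟩), ?_⟩⟩ <;>
      · simp [F, pt, hx]

lemma F_surj [NeZero n] (h : Heff n k e T) (ε : T → Bool) {x y : ZMod n} (hxy : x ≠ y) :
    ∃ j, F n k e ε j = (x, y) := by
  have hd : y - x ≠ 0 := sub_ne_zero.mpr hxy.symm
  have hv0 : (y - x).val ≠ 0 := by
    intro h0
    exact hd ((ZMod.val_eq_zero _).mp h0)
  have hvn : (y - x).val < n := ZMod.val_lt _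
  have hodd : n = 2 * (3 * k + e) + 1 := by have := h.hn; omega
  by_cases hlt : 2 * (y - x).val < n
  · exact (F_exists h ε (y - x).val (by omega) hlt x y (ZMod.natCast_zmod_val _)).1
  · refine (F_exists h ε (n - (y - x).val) (by omega) (by omega) y x ?_).2
    rw [Nat.cast_sub hvn.le, ZMod.natCast_self, ZMod.natCast_zmod_val]
    ring

lemma F_facts [NeZero n] (h : Heff n k e T) (ε : T → Bool) :
    Function.Injective (F n k e ε) ∧ (∀ j, (F n k e ε j).1 ≠ (F n k e ε j).2) ∧ T.card = k := by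
  classical
  have hsub : (univ : Finset (ZMod n)).offDiag ⊆ univ.image (F n k e ε) := by
    rintro ⟨x, y⟩ hxy
    rw [mem_offDiag] at hxy
    obtain ⟨j, hj⟩ := F_surj h ε hxy.2.2
    exact mem_image.mpr ⟨j, mem_univ _, hj⟩
  have hoff : (univ : Finset (ZMod n)).offDiag.card = n * (6 * k + 2 * e) := by
    rw [offDiag_card, card_univ, ZMod.card]
    have := h.hn
    obtain ⟨c, hc⟩ : ∃ c, c = 6 * k + 2 * e := ⟨_, rfl⟩
    have hnc : n = c + 1 := by omega
    rw [← hc, hnc]
    have : (c + 1) * (c + 1) = (c + 1) * c + (c + 1) := by ring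
    omega
  have hJ : Fintype.card ((T × ZMod n × Q) ⊕ (Fin e × ZMod n × Bool)) =
      n * (6 * T.card + 2 * e) := by
    rw [Fintype.card_sum, Fintype.card_prod, Fintype.card_prod, Fintype.card_prod,
      Fintype.card_prod, card_Q, ZMod.card, Fintype.card_fin, Fintype.card_bool, Fintype.card_coe]
    ring
  have h1 := card_le_card hsub
  have h2 : (univ.image (F n k e ε)).card ≤ Fintype.card ((T × ZMod n × Q) ⊕ (Fin e × ZMod n × Bool)) :=
    card_image_le.trans (by rw [card_univ])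
  have hnpos : 0 < n := Nat.pos_of_ne_zero (NeZero.ne n)
  have hTk : T.card = k := by
    apply le_antisymm h.hcard
    have h3 := h1.trans h2
    rw [hoff, hJ] at h3
    have h4 := Nat.le_of_mul_le_mul_left h3 hnpos
    omega
  have h5 : Fintype.card ((T × ZMod n × Q) ⊕ (Fin e × ZMod n × Bool)) =
      (univ : Finset (ZMod n)).offDiag.card := by
    rw [hJ, hoff, hTk]
  have h6 : (univ.image (F n k e ε)).card = (univ : Finset ((T × ZMod n × Q) ⊕ (Fin e × ZMod n × Bool))).card := by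
    rw [card_univ]
    apply le_antisymm h2
    rw [h5]; exact h1
  have hinj := card_image_iff.mp h6
  have heq : (univ : Finset (ZMod n)).offDiag = univ.image (F n k e ε) :=
    eq_of_subset_of_card_le hsub (by rw [← h5]; exact h2)
  refine ⟨fun a b hab => hinj (by simp) (by simp) hab, ?_, hTk⟩
  intro j
  have : F n k e ε j ∈ (univ : Finset (ZMod n)).offDiag := by
    rw [heq]; exact mem_image_of_mem _ (mem_univ _)
  rw [mem_offDiag] at this
  exact this.2.2

/-- short block -/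
def sb (n k : ℕ) (z : ZMod n) : Finset (ZMod n) :=
  {z, z + ((2 * k + 1 : ℕ) : ZMod n), z - ((2 * k + 1 : ℕ) : ZMod n)}

/-- long block -/
def lb (n : ℕ) {T : Finset (ℕ × ℕ)} (ε : T → Bool) (p : T) (z : ZMod n) : Finset (ZMod n) :=
  univ.image (pt n ε p z)

/-- the system -/
def Sys (n k e : ℕ) [NeZero n] {T : Finset (ℕ × ℕ)} (ε : T → Bool) : Finset (Finset (ZMod n)) :=
  (univ : Finset (T × ZMod n)).image (fun q => lb n ε q.1 q.2) ∪
    (univ : Finset (Fin e × ZMod n)).image (fun q => sb n k q.2)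

lemma mem_Sys [NeZero n] (ε : T → Bool) (b : Finset (ZMod n)) :
    b ∈ Sys n k e ε ↔ (∃ p z, lb n ε p z = b) ∨ ∃ (_ : Fin e) (z : ZMod n), sb n k z = b := by
  simp only [Sys, mem_union, mem_image, mem_univ, true_and, Prod.exists]

lemma three_t (h : Heff n k e T) (i : Fin e) :
    ((2 * k + 1 : ℕ) : ZMod n) + ((2 * k + 1 : ℕ) : ZMod n) + ((2 * k + 1 : ℕ) : ZMod n) = 0 := by
  have he : e = 1 := by have := h.he; have := i.2; omega
  have : ((2 * k + 1 + (2 * k + 1) + (2 * k + 1) : ℕ) : ZMod n) = 0 := by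
    have h2 : 2 * k + 1 + (2 * k + 1) + (2 * k + 1) = n := by have := h.hn; omega
    rw [h2]; exact ZMod.natCast_self n
  exact_mod_cast this

lemma sb_pair (h : Heff n k e T) (i : Fin e) {z x y : ZMod n} (hx : x ∈ sb n k z)
    (hy : y ∈ sb n k z) (hxy : x ≠ y) (ε : T → Bool) :
    ∃ s, F n k e ε (Sum.inr (i, x, s)) = (x, y) := by
  have h3 := three_t h i
  set t : ZMod n := ((2 * k + 1 : ℕ) : ZMod n) with ht
  have key : y = x + t ∨ y = x - t := by
    simp only [sb, mem_insert, mem_singleton, ← ht] at hx hy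
    rcases hx with rfl | rfl | rfl <;> rcases hy with rfl | rfl | rfl
    · exact absurd rfl hxy
    · exact Or.inl rfl
    · exact Or.inr rfl
    · exact Or.inr (by ring)
    · exact absurd rfl hxy
    · exact Or.inl (by linear_combination -h3)
    · exact Or.inl (by ring)
    · exact Or.inr (by linear_combination h3)
    · exact absurd rfl hxy
  rcases key with hk | hk
  · exact ⟨true, by simp [F, ← ht, hk]⟩
  · exact ⟨false, by simp [F, ← ht, hk]⟩

lemma sb_eq (h : Heff n k e T) (i : Fin e) {z x : ZMod n} (hx : x ∈ sb n k z) :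
    sb n k z = sb n k x := by
  have h3 := three_t h i
  set t : ZMod n := ((2 * k + 1 : ℕ) : ZMod n) with ht
  simp only [sb, mem_insert, mem_singleton, ← ht] at hx
  rcases hx with rfl | rfl | rfl
  · rfl
  · ext w
    simp only [sb, mem_insert, mem_singleton, ← ht]
    have e1 : z + t + t = z - t := by linear_combination h3
    have e2 : z + t - t = z := by ring
    rw [e1, e2]; tauto
  · ext w
    simp only [sb, mem_insert, mem_singleton, ← ht]
    have e1 : z - t + t = z := by ring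
    have e2 : z - t - t = z + t := by linear_combination -h3
    rw [e1, e2]; tauto

lemma lb_pair (ε : T → Bool) {p : T} {z x y : ZMod n} (hx : x ∈ lb n ε p z)
    (hy : y ∈ lb n ε p z) (hxy : x ≠ y) :
    ∃ w : Q, F n k e ε (Sum.inl (p, z, w)) = (x, y) := by
  simp only [lb, mem_image, mem_univ, true_and] at hx hy
  obtain ⟨u, rfl⟩ := hx
  obtain ⟨v, rfl⟩ := hy
  exact ⟨⟨(u, v), fun h' => hxy (by simp only at h'; rw [h'])⟩, rfl⟩

theorem sys_isSTS [NeZero n] (h : Heff n k e T) (ε : T → Bool) : IsSTS n (Sys n k e ε) := by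
  obtain ⟨hinj, hne, -⟩ := F_facts h ε
  constructor
  · intro b hb
    rcases (mem_Sys ε b).mp hb with ⟨p, z, rfl⟩ | ⟨i, z, rfl⟩
    · rw [lb, card_image_of_injective, card_univ, Fintype.card_fin]
      intro u v huv
      by_contra hne'
      exact hne (Sum.inl (p, z, ⟨(u, v), hne'⟩)) huv
    · have h1 := hne (Sum.inr (i, z, true))
      have h2 := hne (Sum.inr (i, z, false))
      have h3 : z + ((2 * k + 1 : ℕ) : ZMod n) ≠ z - ((2 * k + 1 : ℕ) : ZMod n) := by
        intro h4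
        have h5 : F n k e ε (Sum.inr (i, z, true)) = F n k e ε (Sum.inr (i, z, false)) := by
          simp only [F, if_true, h4]; simp
        have h6 := hinj h5
        simp at h6
      simp only [F, if_true] at h1
      simp only [F, Bool.false_eq_true, if_false] at h2
      rw [sb, card_insert_of_notMem, card_insert_of_notMem, card_singleton]
      · rw [mem_singleton]; exact h3
      · rw [mem_insert, mem_singleton, not_or]; exact ⟨h1, h2⟩
  · intro x y hxy
    have hex : ∃ b, b ∈ Sys n k e ε ∧ x ∈ b ∧ y ∈ b := by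
      obtain ⟨j, hj⟩ := F_surj h ε hxy
      rcases j with ⟨p, z, w⟩ | ⟨i, z, s⟩
      · simp only [F, Prod.mk.injEq] at hj
        refine ⟨lb n ε p z, (mem_Sys ε _).mpr (Or.inl ⟨p, z, rfl⟩), ?_, ?_⟩
        · rw [← hj.1]; exact mem_image_of_mem _ (mem_univ _)
        · rw [← hj.2]; exact mem_image_of_mem _ (mem_univ _)
      · simp only [F, Prod.mk.injEq] at hj
        refine ⟨sb n k z, (mem_Sys ε _).mpr (Or.inr ⟨i, z, rfl⟩), ?_, ?_⟩
        · rw [← hj.1]; simp [sb]
        · rw [← hj.2]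
          cases s <;> simp [sb]
    obtain ⟨b, hb⟩ := hex
    refine ⟨b, hb, ?_⟩
    rintro c ⟨hc, hxc, hyc⟩
    obtain ⟨hb, hxb, hyb⟩ := hb
    rcases (mem_Sys ε b).mp hb with ⟨p, z, rfl⟩ | ⟨i, z, rfl⟩ <;>
      rcases (mem_Sys ε c).mp hc with ⟨p', z', rfl⟩ | ⟨i', z', rfl⟩
    · obtain ⟨w, hw⟩ := lb_pair (k := k) (e := e) ε hxb hyb hxy
      obtain ⟨w', hw'⟩ := lb_pair (k := k) (e := e) ε hxc hyc hxy
      have := hinj (hw.trans hw'.symm)
      simp only [Sum.inl.injEq, Prod.mk.injEq] at this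
      rw [this.1, this.2.1]
    · obtain ⟨w, hw⟩ := lb_pair (k := k) (e := e) ε hxb hyb hxy
      obtain ⟨w', hw'⟩ := sb_pair h i' hxc hyc hxy ε
      have := hinj (hw.trans hw'.symm)
      simp at this
    · obtain ⟨w, hw⟩ := lb_pair (k := k) (e := e) ε hxc hyc hxy
      obtain ⟨w', hw'⟩ := sb_pair h i hxb hyb hxy ε
      have := hinj (hw.trans hw'.symm)
      simp at this
    · rw [sb_eq h i hxb, sb_eq h i' hxc]

theorem sys_isCyclic [NeZero n] (ε : T → Bool) : IsCyclic n (Sys n k e ε) := by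
  intro b hb
  rcases (mem_Sys ε b).mp hb with ⟨p, z, rfl⟩ | ⟨i, z, rfl⟩
  · refine (mem_Sys ε _).mpr (Or.inl ⟨p, z + 1, ?_⟩)
    rw [lb, lb, image_image]
    apply image_congr
    intro u _
    fin_cases u <;> simp [pt] <;> ring
  · refine (mem_Sys ε _).mpr (Or.inr ⟨i, z + 1, ?_⟩)
    rw [sb, sb, image_insert, image_insert, image_singleton]
    congr 2
    · ring
    · congr 1; ring

theorem sys_inj [NeZero n] (h : Heff n k e T) {ε ε' : T → Bool}
    (he : Sys n k e ε = Sys n k e ε') : ε = ε' := by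
  have aux : ∀ {ε ε' : T → Bool} (p : T), Sys n k e ε = Sys n k e ε' → ε p = true → ε' p = false → False := by
    intro ε ε' p he h1 h2
    obtain ⟨hinj, hne, -⟩ := F_facts h ε
    have hsts := sys_isSTS h ε
    set a : ZMod n := (p.1.1 : ZMod n) with ha
    set b : ZMod n := (p.1.2 : ZMod n) with hb
    have hpt : pt n ε p 0 = ![0, a, a + b] := by simp [pt, h1, ← ha, ← hb]
    have hptb : pt n ε p (-b) = ![-b, -b + a, a] := by
      simp only [pt, h1, ← ha, ← hb, if_true]
      congr 1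
      congr 1
      congr 1
      ring
    have hpt' : pt n ε' p (-b) = ![-b, 0, a] := by
      simp only [pt, h2, ← ha, ← hb]
      simp
    have hm1 : lb n ε p 0 ∈ Sys n k e ε := (mem_Sys ε _).mpr (Or.inl ⟨p, 0, rfl⟩)
    have hm2 : lb n ε' p (-b) ∈ Sys n k e ε := by
      rw [he]; exact (mem_Sys ε' _).mpr (Or.inl ⟨p, -b, rfl⟩)
    have h0a : (0 : ZMod n) ≠ a := by
      have := hne (Sum.inl (p, 0, ⟨(0, 1), by decide⟩))
      simpa [F, hpt] using this
    have h0ab : (0 : ZMod n) ≠ a + b := by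
      have := hne (Sum.inl (p, 0, ⟨(0, 2), by decide⟩))
      simpa [F, hpt] using this
    have haab : a ≠ a + b := by
      have := hne (Sum.inl (p, 0, ⟨(1, 2), by decide⟩))
      simpa [F, hpt] using this
    have heq : lb n ε p 0 = lb n ε' p (-b) := by
      apply uniq hsts h0a hm1 hm2
      · rw [lb, hpt]; exact mem_image.mpr ⟨0, mem_univ _, rfl⟩
      · rw [lb, hpt]; exact mem_image.mpr ⟨1, mem_univ _, rfl⟩
      · rw [lb, hpt']; exact mem_image.mpr ⟨1, mem_univ _, rfl⟩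
      · rw [lb, hpt']; exact mem_image.mpr ⟨2, mem_univ _, rfl⟩
    have hab : a + b ∈ lb n ε' p (-b) := by
      rw [← heq, lb, hpt]; exact mem_image.mpr ⟨2, mem_univ _, rfl⟩
    rw [lb, hpt'] at hab
    obtain ⟨u, -, hu⟩ := mem_image.mp hab
    fin_cases u
    · have hu' : -b = a + b := by simpa using hu
      have h5 : F n k e ε (Sum.inl (p, 0, ⟨(1, 2), by decide⟩)) =
          F n k e ε (Sum.inl (p, -b, ⟨(2, 0), by decide⟩)) := by
        simp only [F, hpt, hptb]
        simp [hu']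
      have h6 := hinj h5
      simp only [Sum.inl.injEq, Prod.mk.injEq, Subtype.mk.injEq] at h6
      exact absurd h6.2.2.1 (by decide)
    · exact h0ab (by simpa using hu)
    · exact haab (by simpa using hu)
  funext p
  cases h1 : ε p <;> cases h2 : ε' p
  · rfl
  · exact (aux p he.symm h2 h1).elim
  · exact (aux p he h1 h2).elim
  · rfl

end

end Pool.Agent.Helper774.CSTS
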