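import Pool.Agent.Helper774.CSTS.Pel

set_option autoImplicit false

open Finset

namespace Pool.Agent.Helper774.CSTS

/-- The cyclic Steiner triple systems on the point set `Z/nZ`, i.e. those invariant under the
translation `x ↦ x + 1`. -/
def CycSTS (n : ℕ) : Type := {B : Finset (Finset (ZMod n)) // IsSTS n B ∧ IsCyclic n B}

/-- Isomorphism of Steiner triple systems on `Z/nZ`: some permutation of the points (not
necessarily related to the cyclic group) maps the blocks of the first onto the blocks of the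
second. -/
def isoSetoid (n : ℕ) : Setoid (CycSTS n) where
  r B B' := ∃ σ : Equiv.Perm (ZMod n), Maps σ B.1 B'.1
  iseqv :=
    { refl := fun B => ⟨1, by simp [Maps]⟩
      symm := by
        rintro B B' ⟨σ, hσ⟩
        refine ⟨σ⁻¹, ?_⟩
        have hσ' : B'.1 = B.1.image (fun b => b.image σ) := hσ
        have hid : (fun b : Finset (ZMod n) => b.image (σ⁻¹ : Equiv.Perm (ZMod n))) ∘
            (fun b : Finset (ZMod n) => b.image σ) = id := by
          funext b
          rw [Function.comp, image_image]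
          have : ((σ⁻¹ : Equiv.Perm (ZMod n)) : ZMod n → ZMod n) ∘ σ = id := by
            funext x; simp
          rw [this, image_id]; rfl
        rw [Maps, hσ', image_image, hid, image_id]
      trans := by
        rintro B B' B'' ⟨σ, hσ⟩ ⟨τ, hτ⟩
        refine ⟨τ * σ, ?_⟩
        have hσ' : B'.1 = B.1.image (fun b => b.image σ) := hσ
        have hτ' : B''.1 = B'.1.image (fun b => b.image τ) := hτ
        rw [Maps, hτ', hσ', image_image]
        congr 1
        funext b
        simp [Function.comp, image_image] }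

/-- `C n` is the number of isomorphism classes of cyclic Steiner triple systems of order `n`. -/
noncomputable def C (n : ℕ) : ℕ := Nat.card (Quotient (isoSetoid n))

theorem count {n k e : ℕ} [NeZero n] {T : Finset (ℕ × ℕ)} (h : Heff n k e T) :
    2 ^ k ≤ C n * n ^ (Nat.log 2 n + 2) := by
  classical
  have hT : T.card = k := (F_facts h (fun _ => true)).2.2
  haveI : Finite (CycSTS n) := Subtype.finite
  haveI : Fintype (Quotient (isoSetoid n)) := Fintype.ofFinite _
  set φ : (T → Bool) → Quotient (isoSetoid n) :=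
    fun ε => Quotient.mk _ ⟨Sys n k e ε, sys_isSTS h ε, sys_isCyclic ε⟩ with hφ
  have h1 : (univ : Finset (T → Bool)).card ≤
      n ^ (Nat.log 2 n + 2) * ((univ : Finset (T → Bool)).image φ).card := by
    apply card_le_mul_card_image
    intro a ha
    obtain ⟨ε₀, -, rfl⟩ := mem_image.mp ha
    rw [← card_image_of_injective (f := fun ε : T → Bool => Sys n k e ε) _
      (fun ε ε' he => sys_inj h he)]
    apply class_bound (sys_isSTS h ε₀)
    intro B hB
    obtain ⟨ε, hε, rfl⟩ := mem_image.mp hB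
    rw [mem_filter] at hε
    have h2 : ∃ σ : Equiv.Perm (ZMod n), Maps σ (Sys n k e ε₀) (Sys n k e ε) :=
      Quotient.exact hε.2.symm
    exact ⟨sys_isCyclic ε, h2⟩
  have h2 : ((univ : Finset (T → Bool)).image φ).card ≤ C n := by
    rw [C, Nat.card_eq_fintype_card]
    exact card_le_univ _
  have h3 : (univ : Finset (T → Bool)).card = 2 ^ k := by
    rw [card_univ, Fintype.card_fun, Fintype.card_bool, Fintype.card_coe, hT]
  calc 2 ^ k ≤ n ^ (Nat.log 2 n + 2) * ((univ : Finset (T → Bool)).image φ).card := by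
        rw [← h3]; exact h1
    _ ≤ n ^ (Nat.log 2 n + 2) * C n := Nat.mul_le_mul_left _ h2
    _ = _ := mul_comm _ _

theorem heff_exists (n : ℕ) (hn : 60 ≤ n) (h6 : n % 6 = 1 ∨ n % 6 = 3) :
    ∃ e T, Heff n (n / 6) e T := by
  rcases (by omega : n % 18 = 1 ∨ n % 18 = 7 ∨ n % 18 = 13 ∨ n % 18 = 3 ∨ n % 18 = 9 ∨ n % 18 = 15)
    with h | h | h | h | h | h
  · obtain ⟨T, hT⟩ := pel1 (n / 18) (by omega)
    refine ⟨0, T, ?_⟩
    have e1 : 18 * (n / 18) + 1 = n := by omega
    have e2 : 3 * (n / 18) = n / 6 := by omega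
    rwa [e1, e2] at hT
  · obtain ⟨T, hT⟩ := pel7 (n / 18) (by omega)
    refine ⟨0, T, ?_⟩
    have e1 : 18 * (n / 18) + 7 = n := by omega
    have e2 : 3 * (n / 18) + 1 = n / 6 := by omega
    rwa [e1, e2] at hT
  · obtain ⟨T, hT⟩ := pel13 (n / 18) (by omega)
    refine ⟨0, T, ?_⟩
    have e1 : 18 * (n / 18) + 13 = n := by omega
    have e2 : 3 * (n / 18) + 2 = n / 6 := by omega
    rwa [e1, e2] at hT
  · obtain ⟨T, hT⟩ := pel3 (n / 18) (by omega)
    refine ⟨1, T, ?_⟩
    have e1 : 18 * (n / 18) + 3 = n := by omega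
    have e2 : 3 * (n / 18) = n / 6 := by omega
    rwa [e1, e2] at hT
  · obtain ⟨T, hT⟩ := pel9 (n / 18) (by omega)
    refine ⟨1, T, ?_⟩
    have e1 : 18 * (n / 18) + 9 = n := by omega
    have e2 : 3 * (n / 18) + 1 = n / 6 := by omega
    rwa [e1, e2] at hT
  · obtain ⟨T, hT⟩ := pel15 (n / 18) (by omega)
    refine ⟨1, T, ?_⟩
    have e1 : 18 * (n / 18) + 15 = n := by omega
    have e2 : 3 * (n / 18) + 2 = n / 6 := by omega
    rwa [e1, e2] at hT

theorem lower (n : ℕ) (hn : 60 ≤ n) (h6 : n % 6 = 1 ∨ n % 6 = 3) :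
    2 ^ (n / 6) ≤ C n * n ^ (Nat.log 2 n + 2) := by
  haveI : NeZero n := ⟨by omega⟩
  obtain ⟨e, T, h⟩ := heff_exists n hn h6
  exact count h

lemma pow_ge (L : ℕ) (hL : 12 ≤ L) : 12 * ((L + 1) * (L + 2)) ≤ 2 ^ L := by
  induction L, hL using Nat.le_induction with
  | base => norm_num
  | succ L hL ih =>
    rw [pow_succ]
    nlinarith

theorem lower2 (n : ℕ) (hn : 4096 ≤ n) (h6 : n % 6 = 1 ∨ n % 6 = 3) :
    2 ^ (n / 12 - 1) ≤ C n := by
  have h1 := lower n (by omega) h6
  set L := Nat.log 2 n with hL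
  have hL12 : 12 ≤ L := by
    rw [hL]
    calc 12 = Nat.log 2 (2 ^ 12) := (Nat.log_pow (by norm_num) 12).symm
      _ ≤ Nat.log 2 n := Nat.log_mono_right (by omega)
  have h2 : 2 ^ L ≤ n := Nat.pow_log_le_self 2 (by omega)
  have h3 : n < 2 ^ (L + 1) := Nat.lt_pow_succ_log_self (by norm_num) n
  have h4 : n ^ (L + 2) ≤ 2 ^ ((L + 1) * (L + 2)) := by
    rw [pow_mul]
    exact Nat.pow_le_pow_left h3.le _
  have h5 := pow_ge L hL12
  have h6' : (n / 12 - 1) + (L + 1) * (L + 2) ≤ n / 6 := by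
    have h7 : 12 * ((L + 1) * (L + 2)) ≤ n := h5.trans h2
    obtain ⟨c, hc⟩ : ∃ c, c = (L + 1) * (L + 2) := ⟨_, rfl⟩
    rw [← hc] at h7 ⊢
    omega
  have h8 : 2 ^ (n / 12 - 1) * 2 ^ ((L + 1) * (L + 2)) ≤ C n * 2 ^ ((L + 1) * (L + 2)) := by
    rw [← pow_add]
    calc 2 ^ (n / 12 - 1 + (L + 1) * (L + 2)) ≤ 2 ^ (n / 6) := Nat.pow_le_pow_right (by norm_num) h6'
      _ ≤ C n * n ^ (L + 2) := h1
      _ ≤ _ := Nat.mul_le_mul_left _ h4
  exact Nat.le_of_mul_le_mul_right h8 (by positivity)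

theorem toInf (M : ℕ) : ∃ N : ℕ, ∀ n, N ≤ n → (n % 6 = 1 ∨ n % 6 = 3) → M ≤ C n := by
  refine ⟨max 4096 (12 * M + 24), fun n hn h6 => ?_⟩
  have h1 := lower2 n (le_trans (le_max_left _ _) hn) h6
  have h2 : M ≤ n / 12 - 1 := by
    have := le_trans (le_max_right _ _) hn
    omega
  calc M ≤ 2 ^ M := Nat.lt_two_pow_self.le
    _ ≤ 2 ^ (n / 12 - 1) := Nat.pow_le_pow_right (by norm_num) h2
    _ ≤ C n := h1

end Pool.Agent.Helper774.CSTS
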