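import Mathlib

set_option autoImplicit false

open Finset

namespace Pool.Agent.Helper774.CSTS

variable {n : ℕ}

/-- `B` is the set of blocks of a Steiner triple system on the point set `Z/nZ`. -/
def IsSTS (n : ℕ) (B : Finset (Finset (ZMod n))) : Prop :=
  (∀ b ∈ B, b.card = 3) ∧
    ∀ x y : ZMod n, x ≠ y → ∃! b : Finset (ZMod n), b ∈ B ∧ x ∈ b ∧ y ∈ b

/-- `B` is invariant under the translation `x ↦ x + 1` of `Z/nZ`. -/
def IsCyclic (n : ℕ) (B : Finset (Finset (ZMod n))) : Prop :=
  ∀ b ∈ B, b.image (fun x => x + 1) ∈ B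

/-- The permutation `σ` of the points maps the block set `B` onto the block set `B'`. -/
def Maps (σ : Equiv.Perm (ZMod n)) (B B' : Finset (Finset (ZMod n))) : Prop :=
  B' = B.image (fun b => b.image σ)

lemma third {B : Finset (Finset (ZMod n))} (h : IsSTS n B) {x z : ZMod n} (hxz : x ≠ z) :
    ∃ w, w ≠ x ∧ w ≠ z ∧ ({x, z, w} : Finset (ZMod n)) ∈ B := by
  obtain ⟨b, ⟨hb, hx, hz⟩, -⟩ := h.2 x z hxz
  have h3 := h.1 b hb
  have hz' : z ∈ b.erase x := mem_erase.mpr ⟨hxz.symm, hz⟩
  have h1 : ((b.erase x).erase z).card = 1 := by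
    rw [card_erase_of_mem hz', card_erase_of_mem hx, h3]
  obtain ⟨w, hw⟩ := card_eq_one.mp h1
  have hb2 : b = {x, z, w} := by
    rw [← insert_erase hx, ← insert_erase hz', hw]
  have hwm : w ∈ (b.erase x).erase z := by rw [hw]; exact mem_singleton_self w
  rw [mem_erase, mem_erase] at hwm
  exact ⟨w, hwm.2.1, hwm.1, hb2 ▸ hb⟩

lemma uniq {B : Finset (Finset (ZMod n))} (h : IsSTS n B) {x z : ZMod n} (hxz : x ≠ z)
    {b c : Finset (ZMod n)} (hb : b ∈ B) (hc : c ∈ B) (hxb : x ∈ b) (hzb : z ∈ b)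
    (hxc : x ∈ c) (hzc : z ∈ c) : b = c :=
  (h.2 x z hxz).unique ⟨hb, hxb, hzb⟩ ⟨hc, hxc, hzc⟩

/-- sub-systems -/
def Closed (B : Finset (Finset (ZMod n))) (Y : Finset (ZMod n)) : Prop :=
  ∀ b ∈ B, ∀ x ∈ b, ∀ y ∈ b, x ≠ y → x ∈ Y → y ∈ Y → b ⊆ Y

lemma double {B : Finset (Finset (ZMod n))} (h : IsSTS n B) {X Y : Finset (ZMod n)}
    (hX : Closed B X) (hY : Closed B Y) (hXY : X ⊆ Y) {z : ZMod n} (hzX : z ∉ X) (hzY : z ∈ Y) :
    2 * X.card + 1 ≤ Y.card := by
  have hex : ∀ x, ∃ w, x ≠ z → (w ≠ x ∧ w ≠ z ∧ ({x, z, w} : Finset (ZMod n)) ∈ B) := by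
    intro x
    by_cases hx : x = z
    · exact ⟨x, fun h' => absurd hx h'⟩
    · obtain ⟨w, hw⟩ := third h hx
      exact ⟨w, fun _ => hw⟩
  choose t ht using hex
  have hne : ∀ x ∈ X, x ≠ z := fun x hx h' => hzX (h' ▸ hx)
  have hinj : Set.InjOn t X := by
    intro x hx x' hx' he
    have h1 := ht x (hne x hx)
    have h2 := ht x' (hne x' hx')
    rw [← he] at h2
    have := uniq h h1.2.1 h1.2.2 h2.2.2 (by simp) (by simp) (by simp) (by simp)
    have hm : x ∈ ({x', z, t x} : Finset (ZMod n)) := by rw [← this]; simp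
    simp only [mem_insert, mem_singleton] at hm
    rcases hm with hm | hm | hm
    · exact hm
    · exact absurd hm (hne x hx)
    · exact absurd hm.symm h1.1
  have hsub : X.image t ∪ insert z X ⊆ Y := by
    intro w hw
    rcases mem_union.mp hw with hw | hw
    · obtain ⟨x, hx, rfl⟩ := mem_image.mp hw
      have h1 := ht x (hne x hx)
      exact hY _ h1.2.2 x (by simp) z (by simp) (hne x hx) (hXY hx) hzY (by simp)
    · rcases mem_insert.mp hw with rfl | hw
      · exact hzY
      · exact hXY hw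
  have hdis : Disjoint (X.image t) (insert z X) := by
    rw [disjoint_left]
    intro w hw hw2
    obtain ⟨x, hx, rfl⟩ := mem_image.mp hw
    have h1 := ht x (hne x hx)
    rcases mem_insert.mp hw2 with hw2 | hw2
    · exact h1.2.1 hw2
    · exact hzX (hX _ h1.2.2 x (by simp) (t x) (by simp) h1.1.symm hx hw2 (by simp))
  have hc := card_le_card hsub
  rw [card_union_of_disjoint hdis, card_image_of_injOn hinj, card_insert_of_notMem hzX] at hc
  omega

lemma gen [NeZero n] {B : Finset (Finset (ZMod n))} (h : IsSTS n B) (j : ℕ) :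
    ∃ s : Fin j → ZMod n, ∀ Y, Closed B Y → (∀ i, s i ∈ Y) → 2 ^ j ≤ Y.card + 1 ∨ Y = univ := by
  classical
  induction j with
  | zero => exact ⟨fun i => i.elim0, fun Y _ _ => Or.inl (by simp)⟩
  | succ j ih =>
    obtain ⟨s, hs⟩ := ih
    set X : Finset (ZMod n) := univ.filter (fun x => ∀ Y, Closed B Y → (∀ i, s i ∈ Y) → x ∈ Y)
      with hXdef
    have hXc : Closed B X := by
      intro b hb x hx y hy hxy hxX hyX w hw
      rw [hXdef, mem_filter] at hxX hyX ⊢
      exact ⟨mem_univ _, fun Y hY hYs =>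
        hY b hb x hx y hy hxy (hxX.2 Y hY hYs) (hyX.2 Y hY hYs) hw⟩
    have hsX : ∀ i, s i ∈ X := by
      intro i
      rw [hXdef, mem_filter]
      exact ⟨mem_univ _, fun Y _ hYs => hYs i⟩
    have hmin : ∀ Y, Closed B Y → (∀ i, s i ∈ Y) → X ⊆ Y := by
      intro Y hY hYs x hx
      rw [hXdef, mem_filter] at hx
      exact hx.2 Y hY hYs
    by_cases hXu : X = univ
    · refine ⟨Fin.cons (0 : ZMod n) s, fun Y hY hYs => Or.inr ?_⟩
      have h1 := hmin Y hY (fun i => by simpa using hYs i.succ)
      rw [hXu] at h1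
      exact univ_subset_iff.mp h1
    · obtain ⟨z, hz⟩ : ∃ z, z ∉ X := by
        by_contra hcon
        push Not at hcon
        exact hXu (eq_univ_iff_forall.mpr hcon)
      refine ⟨Fin.cons z s, fun Y hY hYs => Or.inl ?_⟩
      have h1 := hmin Y hY (fun i => by simpa using hYs i.succ)
      have hzY : z ∈ Y := by simpa using hYs 0
      have h2 := double h hXc hY h1 hz hzY
      rcases hs X hXc hsX with h3 | h3
      · rw [pow_succ]; omega
      · exact absurd h3 hXu

lemma agree {B : Finset (Finset (ZMod n))} (h : IsSTS n B) {σ τ : Equiv.Perm (ZMod n)}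
    (hσ : ∀ b ∈ B, b.image σ ∈ B) (hτ : ∀ b ∈ B, b.image τ ∈ B) (E : Finset (ZMod n))
    (hE : ∀ x, x ∈ E ↔ σ x = τ x) : Closed B E := by
  intro b hb x hx y hy hxy hxE hyE w hw
  rw [hE] at hxE hyE ⊢
  by_cases hwx : w = x
  · rw [hwx]; exact hxE
  by_cases hwy : w = y
  · rw [hwy]; exact hyE
  have hbe : b = {x, y, w} := by
    symm
    apply eq_of_subset_of_card_le
    · intro u hu
      simp only [mem_insert, mem_singleton] at hu
      rcases hu with rfl | rfl | rfl <;> assumption
    · rw [h.1 b hb, card_insert_of_notMem, card_insert_of_notMem, card_singleton]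
      · simpa using fun h' => hwy h'.symm
      · simp only [mem_insert, mem_singleton, not_or]
        exact ⟨hxy, fun h' => hwx h'.symm⟩
  have heq : b.image σ = b.image τ := by
    apply uniq h (x := σ x) (z := σ y) (fun h' => hxy (σ.injective h')) (hσ b hb) (hτ b hb)
    · exact mem_image_of_mem _ hx
    · exact mem_image_of_mem _ hy
    · rw [hxE]; exact mem_image_of_mem _ hx
    · rw [hyE]; exact mem_image_of_mem _ hy
  have hm : σ w ∈ b.image τ := by rw [← heq]; exact mem_image_of_mem _ hw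
  obtain ⟨u, hu, hue⟩ := mem_image.mp hm
  rw [hbe] at hu
  simp only [mem_insert, mem_singleton] at hu
  rcases hu with rfl | rfl | rfl
  · exact absurd (σ.injective (hxE.trans hue)).symm hwx
  · exact absurd (σ.injective (hyE.trans hue)).symm hwy
  · exact hue.symm

lemma class_bound [NeZero n] {B₀ : Finset (Finset (ZMod n))} (h₀ : IsSTS n B₀)
    (S : Finset (Finset (Finset (ZMod n))))
    (hS : ∀ B ∈ S, IsCyclic n B ∧ ∃ σ : Equiv.Perm (ZMod n), Maps σ B₀ B) :
    S.card ≤ n ^ (Nat.log 2 n + 2) := by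
  classical
  obtain ⟨s, hs⟩ := gen h₀ (Nat.log 2 n + 1)
  have hgen : ∀ Y, Closed B₀ Y → (∀ i, s i ∈ Y) → Y = univ := by
    intro Y hY hYs
    rcases hs Y hY hYs with h1 | h1
    · have h2 : n < 2 ^ (Nat.log 2 n + 1) := Nat.lt_pow_succ_log_self (by norm_num) n
      have h3 : n ≤ Y.card := by omega
      apply eq_univ_of_card
      rw [ZMod.card]
      exact le_antisymm (by simpa [ZMod.card] using card_le_univ Y) h3
    · exact h1
  have hex : ∀ B, ∃ σ : Equiv.Perm (ZMod n), B ∈ S → Maps σ B₀ B := by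
    intro B
    by_cases hB : B ∈ S
    · obtain ⟨σ, hσ⟩ := (hS B hB).2
      exact ⟨σ, fun _ => hσ⟩
    · exact ⟨1, fun h' => absurd h' hB⟩
  choose f hf using hex
  set tr : Equiv.Perm (ZMod n) := Equiv.addRight (1 : ZMod n) with htr
  set g : Finset (Finset (ZMod n)) → Equiv.Perm (ZMod n) := fun B => ((f B).trans tr).trans (f B).symm
    with hg
  have hga : ∀ B ∈ S, ∀ b ∈ B₀, b.image (g B) ∈ B₀ := by
    intro B hB b hb
    have h5 : B = B₀.image (fun b : Finset (ZMod n) => b.image (f B)) := hf B hB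
    have h1 : b.image (f B) ∈ B :=
      (Finset.ext_iff.mp h5 _).mpr (mem_image_of_mem _ hb)
    have h2 := (hS B hB).1 _ h1
    have h2' : (b.image (f B)).image (fun x : ZMod n => x + 1) ∈
        B₀.image (fun b : Finset (ZMod n) => b.image (f B)) :=
      (Finset.ext_iff.mp h5 _).mp h2
    obtain ⟨b1, hb1, he⟩ := mem_image.mp h2'
    have h3 : b.image (g B) = b1 := by
      have h4 : (b1.image (f B)).image ((f B).symm : ZMod n → ZMod n) = b1 := by
        rw [image_image]; simp
      rw [← h4, he, image_image, image_image]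
      rfl
    rw [h3]; exact hb1
  set code : Finset (Finset (ZMod n)) → ZMod n × (Fin (Nat.log 2 n + 1) → ZMod n) :=
    fun B => ((f B).symm 0, fun i => g B (s i)) with hcode
  have hinj : Set.InjOn code S := by
    intro B hB B' hB' he
    have he1 : (f B).symm 0 = (f B').symm 0 := congrArg Prod.fst he
    have he2 : ∀ i, g B (s i) = g B' (s i) := fun i => congrFun (congrArg Prod.snd he) i
    have hE : (univ.filter (fun x => g B x = g B' x)) = (univ : Finset (ZMod n)) := by
      apply hgen
      · exact agree h₀ (hga B hB) (hga B' hB') _ (by simp)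
      · intro i; simpa using he2 i
    have hgg : ∀ x, g B x = g B' x := by
      intro x
      have : x ∈ univ.filter (fun x => g B x = g B' x) := by rw [hE]; exact mem_univ x
      simpa using this
    have hnat : ∀ i : ℕ, (f B).symm (i : ZMod n) = (f B').symm (i : ZMod n) := by
      intro i
      induction i with
      | zero => simpa using he1
      | succ i ih =>
        have h1 : ∀ B, (f B).symm ((i + 1 : ℕ) : ZMod n) = g B ((f B).symm (i : ZMod n)) := by
          intro B
          simp [hg, htr]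
        rw [h1, h1, ih, hgg]
    have hff : f B = f B' := by
      have : (f B).symm = (f B').symm := by
        ext x
        have h1 := hnat x.val
        rw [ZMod.natCast_zmod_val] at h1
        rw [h1]
      simpa using congrArg Equiv.symm this
    have h1 := hf B hB
    have h2 := hf B' hB'
    rw [Maps] at h1 h2
    rw [h1, h2, hff]
  have hc := card_le_card_of_injOn (s := S) (t := univ) code (fun _ _ => mem_univ _) hinj
  refine hc.trans (le_of_eq ?_)
  rw [card_univ, Fintype.card_prod, Fintype.card_fun, ZMod.card, Fintype.card_fin]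
  ring

end Pool.Agent.Helper774.CSTS
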