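import Pool.Agent.Helper774.CSTS.Build

set_option autoImplicit false

open Finset

namespace Pool.Agent.Helper774.CSTS

/-- a family of pairs indexed by a range -/
def fam (L : ℕ) (u v : ℕ → ℕ) : Finset (ℕ × ℕ) := (range L).image (fun r => (u r, v r))

lemma fam_card (L : ℕ) (u v : ℕ → ℕ) : (fam L u v).card ≤ L :=
  card_image_le.trans (by simp)

lemma mem_fam {L : ℕ} {u v : ℕ → ℕ} {r : ℕ} (hr : r < L) : (u r, v r) ∈ fam L u v :=
  mem_image.mpr ⟨r, mem_range.mpr hr, rfl⟩

/-- the covering relation -/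
def Cov (n m : ℕ) (p : ℕ × ℕ) : Prop :=
  m = p.1 ∨ m = p.2 ∨ m = p.1 + p.2 ∨ m + p.1 + p.2 = n

theorem pel1 (s : ℕ) (hs : 1 ≤ s) : ∃ T, Heff (18 * s + 1) (3 * s) 0 T := by
  set A := fam s (fun r => 3 * r + 1) (fun r => 4 * s - r + 1) with hA
  set B := fam s (fun r => 3 * r + 2) (fun r => 8 * s - r) with hB
  set C := fam (s - 1) (fun r => 3 * r + 3) (fun r => 6 * s - 2 * r - 1) with hC
  refine ⟨insert (3 * s, 3 * s + 1) (A ∪ B ∪ C), by omega, by omega, ?_, ?_⟩
  · have h1 := card_insert_le (3 * s, 3 * s + 1) (A ∪ B ∪ C)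
    have h2 := card_union_le (A ∪ B) C
    have h3 := card_union_le A B
    have h4 : A.card ≤ s := fam_card _ _ _
    have h5 : B.card ≤ s := fam_card _ _ _
    have h6 : C.card ≤ s - 1 := fam_card _ _ _
    omega
  · intro m hm1 hm2
    right
    have hAm : ∀ r, r < s → Cov (18 * s + 1) m (3 * r + 1, 4 * s - r + 1) →
        ∃ p ∈ insert (3 * s, 3 * s + 1) (A ∪ B ∪ C), Cov (18 * s + 1) m p := fun r hr hc =>
      ⟨_, mem_insert_of_mem (mem_union_left _ (mem_union_left _
        (mem_fam (u := fun r => 3 * r + 1) (v := fun r => 4 * s - r + 1) hr))), hc⟩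
    have hBm : ∀ r, r < s → Cov (18 * s + 1) m (3 * r + 2, 8 * s - r) →
        ∃ p ∈ insert (3 * s, 3 * s + 1) (A ∪ B ∪ C), Cov (18 * s + 1) m p := fun r hr hc =>
      ⟨_, mem_insert_of_mem (mem_union_left _ (mem_union_right _
        (mem_fam (u := fun r => 3 * r + 2) (v := fun r => 8 * s - r) hr))), hc⟩
    have hCm : ∀ r, r < s - 1 → Cov (18 * s + 1) m (3 * r + 3, 6 * s - 2 * r - 1) →
        ∃ p ∈ insert (3 * s, 3 * s + 1) (A ∪ B ∪ C), Cov (18 * s + 1) m p := fun r hr hc =>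
      ⟨_, mem_insert_of_mem (mem_union_right _
        (mem_fam (u := fun r => 3 * r + 3) (v := fun r => 6 * s - 2 * r - 1) hr)), hc⟩
    have hD : Cov (18 * s + 1) m (3 * s, 3 * s + 1) →
        ∃ p ∈ insert (3 * s, 3 * s + 1) (A ∪ B ∪ C), Cov (18 * s + 1) m p := fun hc =>
      ⟨_, mem_insert_self _ _, hc⟩
    by_cases c1 : m < 3 * s
    · rcases (by omega : m % 3 = 1 ∨ m % 3 = 2 ∨ m % 3 = 0) with h3 | h3 | h3
      · exact hAm ((m - 1) / 3) (by omega) (Or.inl (by omega))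
      · exact hBm ((m - 2) / 3) (by omega) (Or.inl (by omega))
      · exact hCm ((m - 3) / 3) (by omega) (Or.inl (by omega))
    by_cases c2 : m = 3 * s
    · exact hD (Or.inl c2)
    by_cases c3 : m = 3 * s + 1
    · exact hD (Or.inr (Or.inl c3))
    by_cases c4 : m ≤ 4 * s + 1
    · exact hAm (4 * s + 1 - m) (by omega) (Or.inr (Or.inl (by simp only; omega)))
    by_cases c5 : m ≤ 6 * s
    · rcases (by omega : m % 2 = 0 ∨ m % 2 = 1) with h2 | h2
      · exact hAm ((m - 4 * s - 2) / 2) (by omega) (Or.inr (Or.inr (Or.inl (by simp only; omega))))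
      · exact hCm ((6 * s - 1 - m) / 2) (by omega) (Or.inr (Or.inl (by simp only; omega)))
    by_cases c6 : m = 6 * s + 1
    · exact hD (Or.inr (Or.inr (Or.inl (by simp only; omega))))
    by_cases c7 : m ≤ 7 * s
    · exact hCm (m - 6 * s - 2) (by omega) (Or.inr (Or.inr (Or.inl (by simp only; omega))))
    by_cases c8 : m ≤ 8 * s
    · exact hBm (8 * s - m) (by omega) (Or.inr (Or.inl (by simp only; omega)))
    rcases (by omega : m % 2 = 0 ∨ m % 2 = 1) with h2 | h2
    · exact hBm ((m - 8 * s - 2) / 2) (by omega) (Or.inr (Or.inr (Or.inl (by simp only; omega))))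
    · exact hBm ((10 * s - 1 - m) / 2) (by omega) (Or.inr (Or.inr (Or.inr (by simp only; omega))))

theorem pel7 (s : ℕ) (hs : 1 ≤ s) : ∃ T, Heff (18 * s + 7) (3 * s + 1) 0 T := by
  set A := fam (s) (fun r => 3 * r + 1) (fun r => 8 * s - r + 3) with hA
  set B := fam (s) (fun r => 3 * r + 2) (fun r => 6 * s - 2 * r + 1) with hB
  set C := fam (s) (fun r => 3 * r + 3) (fun r => 4 * s - r + 1) with hC
  refine ⟨(insert (3 * s + 1, 4 * s + 2) (A ∪ B ∪ C)), by omega, by omega, ?_, ?_⟩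
  · have hu1 := card_union_le (A ∪ B) C
    have hu2 := card_union_le A B
    have hi0 := card_insert_le (3 * s + 1, 4 * s + 2) (A ∪ B ∪ C)
    have hcA : A.card ≤ s := fam_card _ _ _
    have hcB : B.card ≤ s := fam_card _ _ _
    have hcC : C.card ≤ s := fam_card _ _ _
    omega
  · intro m hm1 hm2
    have hAm : ∀ r, r < s → Cov (18 * s + 7) m (3 * r + 1, 8 * s - r + 3) →
        ∃ p ∈ (insert (3 * s + 1, 4 * s + 2) (A ∪ B ∪ C)), Cov (18 * s + 7) m p := fun r hr hc =>
      ⟨_, mem_insert_of_mem (mem_union_left _ (mem_union_left _ (mem_fam (u := fun r => 3 * r + 1) (v := fun r => 8 * s - r + 3) hr))), hc⟩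
    have hBm : ∀ r, r < s → Cov (18 * s + 7) m (3 * r + 2, 6 * s - 2 * r + 1) →
        ∃ p ∈ (insert (3 * s + 1, 4 * s + 2) (A ∪ B ∪ C)), Cov (18 * s + 7) m p := fun r hr hc =>
      ⟨_, mem_insert_of_mem (mem_union_left _ (mem_union_right _ (mem_fam (u := fun r => 3 * r + 2) (v := fun r => 6 * s - 2 * r + 1) hr))), hc⟩
    have hCm : ∀ r, r < s → Cov (18 * s + 7) m (3 * r + 3, 4 * s - r + 1) →
        ∃ p ∈ (insert (3 * s + 1, 4 * s + 2) (A ∪ B ∪ C)), Cov (18 * s + 7) m p := fun r hr hc =>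
      ⟨_, mem_insert_of_mem (mem_union_right _ (mem_fam (u := fun r => 3 * r + 3) (v := fun r => 4 * s - r + 1) hr)), hc⟩
    have hD : Cov (18 * s + 7) m (3 * s + 1, 4 * s + 2) →
        ∃ p ∈ (insert (3 * s + 1, 4 * s + 2) (A ∪ B ∪ C)), Cov (18 * s + 7) m p := fun hc =>
      ⟨_, mem_insert_self _ _, hc⟩
    by_cases c0 : m ≤ 3 * s
    · rcases (by omega : m % 3 = 1 ∨ m % 3 = 2 ∨ m % 3 = 0) with h9 | h9 | h9
      · exact Or.inr (hAm ((m - 1) / 3) (by omega) (Or.inl (by (try simp only) <;> omega)))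
      · exact Or.inr (hBm ((m - 2) / 3) (by omega) (Or.inl (by (try simp only) <;> omega)))
      · exact Or.inr (hCm ((m - 3) / 3) (by omega) (Or.inl (by (try simp only) <;> omega)))
    by_cases c1 : m = 3 * s + 1
    · exact Or.inr (hD (Or.inl (by (try simp only) <;> omega)))
    by_cases c2 : m ≤ 4 * s + 1
    · exact Or.inr (hCm (4 * s + 1 - m) (by omega) (Or.inr (Or.inl (by (try simp only) <;> omega))))
    by_cases c3 : m = 4 * s + 2
    · exact Or.inr (hD (Or.inr (Or.inl (by (try simp only) <;> omega))))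
    by_cases c4 : m ≤ 6 * s + 2
    · rcases (by omega : m % 2 = 0 ∨ m % 2 = 1) with h9 | h9
      · exact Or.inr (hCm ((m - 4 * s - 4) / 2) (by omega) (Or.inr (Or.inr (Or.inl (by (try simp only) <;> omega)))))
      · exact Or.inr (hBm ((6 * s + 1 - m) / 2) (by omega) (Or.inr (Or.inl (by (try simp only) <;> omega))))
    by_cases c5 : m ≤ 7 * s + 2
    · exact Or.inr (hBm (m - 6 * s - 3) (by omega) (Or.inr (Or.inr (Or.inl (by (try simp only) <;> omega)))))
    by_cases c6 : m = 7 * s + 3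
    · exact Or.inr (hD (Or.inr (Or.inr (Or.inl (by (try simp only) <;> omega)))))
    by_cases c7 : m ≤ 8 * s + 3
    · exact Or.inr (hAm (8 * s + 3 - m) (by omega) (Or.inr (Or.inl (by (try simp only) <;> omega))))
    rcases (by omega : m % 2 = 0 ∨ m % 2 = 1) with h9 | h9
    · exact Or.inr (hAm ((m - 8 * s - 4) / 2) (by omega) (Or.inr (Or.inr (Or.inl (by (try simp only) <;> omega)))))
    · exact Or.inr (hAm ((10 * s + 3 - m) / 2) (by omega) (Or.inr (Or.inr (Or.inr (by (try simp only) <;> omega)))))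

theorem pel13 (s : ℕ) (hs : 1 ≤ s) : ∃ T, Heff (18 * s + 13) (3 * s + 2) 0 T := by
  set A := fam (s) (fun r => 3 * r + 2) (fun r => 6 * s - 2 * r + 3) with hA
  set B := fam (s) (fun r => 3 * r + 3) (fun r => 8 * s - r + 5) with hB
  set C := fam (s + 1) (fun r => 3 * r + 1) (fun r => 4 * s - r + 3) with hC
  refine ⟨(insert (3 * s + 2, 7 * s + 5) (A ∪ B ∪ C)), by omega, by omega, ?_, ?_⟩
  · have hu1 := card_union_le (A ∪ B) C
    have hu2 := card_union_le A B
    have hi0 := card_insert_le (3 * s + 2, 7 * s + 5) (A ∪ B ∪ C)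
    have hcA : A.card ≤ s := fam_card _ _ _
    have hcB : B.card ≤ s := fam_card _ _ _
    have hcC : C.card ≤ s + 1 := fam_card _ _ _
    omega
  · intro m hm1 hm2
    have hAm : ∀ r, r < s → Cov (18 * s + 13) m (3 * r + 2, 6 * s - 2 * r + 3) →
        ∃ p ∈ (insert (3 * s + 2, 7 * s + 5) (A ∪ B ∪ C)), Cov (18 * s + 13) m p := fun r hr hc =>
      ⟨_, mem_insert_of_mem (mem_union_left _ (mem_union_left _ (mem_fam (u := fun r => 3 * r + 2) (v := fun r => 6 * s - 2 * r + 3) hr))), hc⟩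
    have hBm : ∀ r, r < s → Cov (18 * s + 13) m (3 * r + 3, 8 * s - r + 5) →
        ∃ p ∈ (insert (3 * s + 2, 7 * s + 5) (A ∪ B ∪ C)), Cov (18 * s + 13) m p := fun r hr hc =>
      ⟨_, mem_insert_of_mem (mem_union_left _ (mem_union_right _ (mem_fam (u := fun r => 3 * r + 3) (v := fun r => 8 * s - r + 5) hr))), hc⟩
    have hCm : ∀ r, r < s + 1 → Cov (18 * s + 13) m (3 * r + 1, 4 * s - r + 3) →
        ∃ p ∈ (insert (3 * s + 2, 7 * s + 5) (A ∪ B ∪ C)), Cov (18 * s + 13) m p := fun r hr hc =>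
      ⟨_, mem_insert_of_mem (mem_union_right _ (mem_fam (u := fun r => 3 * r + 1) (v := fun r => 4 * s - r + 3) hr)), hc⟩
    have hD : Cov (18 * s + 13) m (3 * s + 2, 7 * s + 5) →
        ∃ p ∈ (insert (3 * s + 2, 7 * s + 5) (A ∪ B ∪ C)), Cov (18 * s + 13) m p := fun hc =>
      ⟨_, mem_insert_self _ _, hc⟩
    by_cases c0 : m ≤ 3 * s + 1
    · rcases (by omega : m % 3 = 1 ∨ m % 3 = 2 ∨ m % 3 = 0) with h9 | h9 | h9
      · exact Or.inr (hCm ((m - 1) / 3) (by omega) (Or.inl (by (try simp only) <;> omega)))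
      · exact Or.inr (hAm ((m - 2) / 3) (by omega) (Or.inl (by (try simp only) <;> omega)))
      · exact Or.inr (hBm ((m - 3) / 3) (by omega) (Or.inl (by (try simp only) <;> omega)))
    by_cases c1 : m = 3 * s + 2
    · exact Or.inr (hD (Or.inl (by (try simp only) <;> omega)))
    by_cases c2 : m ≤ 4 * s + 3
    · exact Or.inr (hCm (4 * s + 3 - m) (by omega) (Or.inr (Or.inl (by (try simp only) <;> omega))))
    by_cases c3 : m ≤ 6 * s + 4
    · rcases (by omega : m % 2 = 0 ∨ m % 2 = 1) with h9 | h9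
      · exact Or.inr (hCm ((m - 4 * s - 4) / 2) (by omega) (Or.inr (Or.inr (Or.inl (by (try simp only) <;> omega)))))
      · exact Or.inr (hAm ((6 * s + 3 - m) / 2) (by omega) (Or.inr (Or.inl (by (try simp only) <;> omega))))
    by_cases c4 : m ≤ 7 * s + 4
    · exact Or.inr (hAm (m - 6 * s - 5) (by omega) (Or.inr (Or.inr (Or.inl (by (try simp only) <;> omega)))))
    by_cases c5 : m = 7 * s + 5
    · exact Or.inr (hD (Or.inr (Or.inl (by (try simp only) <;> omega))))
    by_cases c6 : m ≤ 8 * s + 5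
    · exact Or.inr (hBm (8 * s + 5 - m) (by omega) (Or.inr (Or.inl (by (try simp only) <;> omega))))
    by_cases c7 : m = 8 * s + 6
    · exact Or.inr (hD (Or.inr (Or.inr (Or.inr (by (try simp only) <;> omega)))))
    rcases (by omega : m % 2 = 0 ∨ m % 2 = 1) with h9 | h9
    · exact Or.inr (hBm ((m - 8 * s - 8) / 2) (by omega) (Or.inr (Or.inr (Or.inl (by (try simp only) <;> omega)))))
    · exact Or.inr (hBm ((10 * s + 5 - m) / 2) (by omega) (Or.inr (Or.inr (Or.inr (by (try simp only) <;> omega)))))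

theorem pel3 (s : ℕ) (hs : 1 ≤ s) : ∃ T, Heff (18 * s + 3) (3 * s) 1 T := by
  set A := fam (s) (fun r => 3 * r + 1) (fun r => 8 * s - r + 1) with hA
  set B := fam (s) (fun r => 3 * r + 2) (fun r => 4 * s - r) with hB
  set C := fam (s) (fun r => 3 * r + 3) (fun r => 6 * s - 2 * r - 1) with hC
  refine ⟨(A ∪ B ∪ C), by omega, by omega, ?_, ?_⟩
  · have hu1 := card_union_le (A ∪ B) C
    have hu2 := card_union_le A B
    have hcA : A.card ≤ s := fam_card _ _ _
    have hcB : B.card ≤ s := fam_card _ _ _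
    have hcC : C.card ≤ s := fam_card _ _ _
    omega
  · intro m hm1 hm2
    have hAm : ∀ r, r < s → Cov (18 * s + 3) m (3 * r + 1, 8 * s - r + 1) →
        ∃ p ∈ (A ∪ B ∪ C), Cov (18 * s + 3) m p := fun r hr hc =>
      ⟨_, mem_union_left _ (mem_union_left _ (mem_fam (u := fun r => 3 * r + 1) (v := fun r => 8 * s - r + 1) hr)), hc⟩
    have hBm : ∀ r, r < s → Cov (18 * s + 3) m (3 * r + 2, 4 * s - r) →
        ∃ p ∈ (A ∪ B ∪ C), Cov (18 * s + 3) m p := fun r hr hc =>
      ⟨_, mem_union_left _ (mem_union_right _ (mem_fam (u := fun r => 3 * r + 2) (v := fun r => 4 * s - r) hr)), hc⟩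
    have hCm : ∀ r, r < s → Cov (18 * s + 3) m (3 * r + 3, 6 * s - 2 * r - 1) →
        ∃ p ∈ (A ∪ B ∪ C), Cov (18 * s + 3) m p := fun r hr hc =>
      ⟨_, mem_union_right _ (mem_fam (u := fun r => 3 * r + 3) (v := fun r => 6 * s - 2 * r - 1) hr), hc⟩
    by_cases c0 : m ≤ 3 * s
    · rcases (by omega : m % 3 = 1 ∨ m % 3 = 2 ∨ m % 3 = 0) with h9 | h9 | h9
      · exact Or.inr (hAm ((m - 1) / 3) (by omega) (Or.inl (by (try simp only) <;> omega)))
      · exact Or.inr (hBm ((m - 2) / 3) (by omega) (Or.inl (by (try simp only) <;> omega)))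
      · exact Or.inr (hCm ((m - 3) / 3) (by omega) (Or.inl (by (try simp only) <;> omega)))
    by_cases c1 : m ≤ 4 * s
    · exact Or.inr (hBm (4 * s - m) (by omega) (Or.inr (Or.inl (by (try simp only) <;> omega))))
    by_cases c2 : m ≤ 6 * s
    · rcases (by omega : m % 2 = 0 ∨ m % 2 = 1) with h9 | h9
      · exact Or.inr (hBm ((m - 4 * s - 2) / 2) (by omega) (Or.inr (Or.inr (Or.inl (by (try simp only) <;> omega)))))
      · exact Or.inr (hCm ((6 * s - 1 - m) / 2) (by omega) (Or.inr (Or.inl (by (try simp only) <;> omega))))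
    by_cases c3 : m = 6 * s + 1
    · exact Or.inl ⟨rfl, by omega⟩
    by_cases c4 : m ≤ 7 * s + 1
    · exact Or.inr (hCm (m - 6 * s - 2) (by omega) (Or.inr (Or.inr (Or.inl (by (try simp only) <;> omega)))))
    by_cases c5 : m ≤ 8 * s + 1
    · exact Or.inr (hAm (8 * s + 1 - m) (by omega) (Or.inr (Or.inl (by (try simp only) <;> omega))))
    rcases (by omega : m % 2 = 0 ∨ m % 2 = 1) with h9 | h9
    · exact Or.inr (hAm ((m - 8 * s - 2) / 2) (by omega) (Or.inr (Or.inr (Or.inl (by (try simp only) <;> omega)))))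
    · exact Or.inr (hAm ((10 * s + 1 - m) / 2) (by omega) (Or.inr (Or.inr (Or.inr (by (try simp only) <;> omega)))))

theorem pel15 (s : ℕ) (hs : 1 ≤ s) : ∃ T, Heff (18 * s + 15) (3 * s + 2) 1 T := by
  set A := fam (s + 1) (fun r => 3 * r + 1) (fun r => 4 * s - r + 3) with hA
  set B := fam (s + 1) (fun r => 3 * r + 2) (fun r => 8 * s - r + 6) with hB
  set C := fam (s) (fun r => 3 * r + 3) (fun r => 6 * s - 2 * r + 3) with hC
  refine ⟨(A ∪ B ∪ C), by omega, by omega, ?_, ?_⟩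
  · have hu1 := card_union_le (A ∪ B) C
    have hu2 := card_union_le A B
    have hcA : A.card ≤ s + 1 := fam_card _ _ _
    have hcB : B.card ≤ s + 1 := fam_card _ _ _
    have hcC : C.card ≤ s := fam_card _ _ _
    omega
  · intro m hm1 hm2
    have hAm : ∀ r, r < s + 1 → Cov (18 * s + 15) m (3 * r + 1, 4 * s - r + 3) →
        ∃ p ∈ (A ∪ B ∪ C), Cov (18 * s + 15) m p := fun r hr hc =>
      ⟨_, mem_union_left _ (mem_union_left _ (mem_fam (u := fun r => 3 * r + 1) (v := fun r => 4 * s - r + 3) hr)), hc⟩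
    have hBm : ∀ r, r < s + 1 → Cov (18 * s + 15) m (3 * r + 2, 8 * s - r + 6) →
        ∃ p ∈ (A ∪ B ∪ C), Cov (18 * s + 15) m p := fun r hr hc =>
      ⟨_, mem_union_left _ (mem_union_right _ (mem_fam (u := fun r => 3 * r + 2) (v := fun r => 8 * s - r + 6) hr)), hc⟩
    have hCm : ∀ r, r < s → Cov (18 * s + 15) m (3 * r + 3, 6 * s - 2 * r + 3) →
        ∃ p ∈ (A ∪ B ∪ C), Cov (18 * s + 15) m p := fun r hr hc =>
      ⟨_, mem_union_right _ (mem_fam (u := fun r => 3 * r + 3) (v := fun r => 6 * s - 2 * r + 3) hr), hc⟩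
    by_cases c0 : m ≤ 3 * s + 2
    · rcases (by omega : m % 3 = 1 ∨ m % 3 = 2 ∨ m % 3 = 0) with h9 | h9 | h9
      · exact Or.inr (hAm ((m - 1) / 3) (by omega) (Or.inl (by (try simp only) <;> omega)))
      · exact Or.inr (hBm ((m - 2) / 3) (by omega) (Or.inl (by (try simp only) <;> omega)))
      · exact Or.inr (hCm ((m - 3) / 3) (by omega) (Or.inl (by (try simp only) <;> omega)))
    by_cases c1 : m ≤ 4 * s + 3
    · exact Or.inr (hAm (4 * s + 3 - m) (by omega) (Or.inr (Or.inl (by (try simp only) <;> omega))))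
    by_cases c2 : m ≤ 6 * s + 4
    · rcases (by omega : m % 2 = 0 ∨ m % 2 = 1) with h9 | h9
      · exact Or.inr (hAm ((m - 4 * s - 4) / 2) (by omega) (Or.inr (Or.inr (Or.inl (by (try simp only) <;> omega)))))
      · exact Or.inr (hCm ((6 * s + 3 - m) / 2) (by omega) (Or.inr (Or.inl (by (try simp only) <;> omega))))
    by_cases c3 : m = 6 * s + 5
    · exact Or.inl ⟨rfl, by omega⟩
    by_cases c4 : m ≤ 7 * s + 5
    · exact Or.inr (hCm (m - 6 * s - 6) (by omega) (Or.inr (Or.inr (Or.inl (by (try simp only) <;> omega)))))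
    by_cases c5 : m ≤ 8 * s + 6
    · exact Or.inr (hBm (8 * s + 6 - m) (by omega) (Or.inr (Or.inl (by (try simp only) <;> omega))))
    rcases (by omega : m % 2 = 0 ∨ m % 2 = 1) with h9 | h9
    · exact Or.inr (hBm ((m - 8 * s - 8) / 2) (by omega) (Or.inr (Or.inr (Or.inl (by (try simp only) <;> omega)))))
    · exact Or.inr (hBm ((10 * s + 7 - m) / 2) (by omega) (Or.inr (Or.inr (Or.inr (by (try simp only) <;> omega)))))

theorem pel9 (s : ℕ) (hs : 3 ≤ s) : ∃ T, Heff (18 * s + 9) (3 * s + 1) 1 T := by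
  set A := fam (s + 1) (fun r => 3 * r + 1) (fun r => 4 * s - r + 3) with hA
  set B := fam (s - 3) (fun r => 3 * r + 8) (fun r => 8 * s - r) with hB
  set C := fam (s - 2) (fun r => 3 * r + 6) (fun r => 6 * s - 2 * r - 1) with hC
  refine ⟨(insert (2, 8 * s + 3) (insert (3, 8 * s + 1) (insert (5, 8 * s + 2) (insert (3 * s - 1, 3 * s + 2) (insert (3 * s, 7 * s + 3) (A ∪ B ∪ C)))))), by omega, by omega, ?_, ?_⟩
  · have hu1 := card_union_le (A ∪ B) C
    have hu2 := card_union_le A B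
    have hi0 := card_insert_le (3 * s, 7 * s + 3) (A ∪ B ∪ C)
    have hi1 := card_insert_le (3 * s - 1, 3 * s + 2) (insert (3 * s, 7 * s + 3) (A ∪ B ∪ C))
    have hi2 := card_insert_le (5, 8 * s + 2) (insert (3 * s - 1, 3 * s + 2) (insert (3 * s, 7 * s + 3) (A ∪ B ∪ C)))
    have hi3 := card_insert_le (3, 8 * s + 1) (insert (5, 8 * s + 2) (insert (3 * s - 1, 3 * s + 2) (insert (3 * s, 7 * s + 3) (A ∪ B ∪ C))))
    have hi4 := card_insert_le (2, 8 * s + 3) (insert (3, 8 * s + 1) (insert (5, 8 * s + 2) (insert (3 * s - 1, 3 * s + 2) (insert (3 * s, 7 * s + 3) (A ∪ B ∪ C)))))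
    have hcA : A.card ≤ s + 1 := fam_card _ _ _
    have hcB : B.card ≤ s - 3 := fam_card _ _ _
    have hcC : C.card ≤ s - 2 := fam_card _ _ _
    omega
  · intro m hm1 hm2
    have hAm : ∀ r, r < s + 1 → Cov (18 * s + 9) m (3 * r + 1, 4 * s - r + 3) →
        ∃ p ∈ (insert (2, 8 * s + 3) (insert (3, 8 * s + 1) (insert (5, 8 * s + 2) (insert (3 * s - 1, 3 * s + 2) (insert (3 * s, 7 * s + 3) (A ∪ B ∪ C)))))), Cov (18 * s + 9) m p := fun r hr hc =>
      ⟨_, mem_insert_of_mem (mem_insert_of_mem (mem_insert_of_mem (mem_insert_of_mem (mem_insert_of_mem (mem_union_left _ (mem_union_left _ (mem_fam (u := fun r => 3 * r + 1) (v := fun r => 4 * s - r + 3) hr))))))), hc⟩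
    have hBm : ∀ r, r < s - 3 → Cov (18 * s + 9) m (3 * r + 8, 8 * s - r) →
        ∃ p ∈ (insert (2, 8 * s + 3) (insert (3, 8 * s + 1) (insert (5, 8 * s + 2) (insert (3 * s - 1, 3 * s + 2) (insert (3 * s, 7 * s + 3) (A ∪ B ∪ C)))))), Cov (18 * s + 9) m p := fun r hr hc =>
      ⟨_, mem_insert_of_mem (mem_insert_of_mem (mem_insert_of_mem (mem_insert_of_mem (mem_insert_of_mem (mem_union_left _ (mem_union_right _ (mem_fam (u := fun r => 3 * r + 8) (v := fun r => 8 * s - r) hr))))))), hc⟩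
    have hCm : ∀ r, r < s - 2 → Cov (18 * s + 9) m (3 * r + 6, 6 * s - 2 * r - 1) →
        ∃ p ∈ (insert (2, 8 * s + 3) (insert (3, 8 * s + 1) (insert (5, 8 * s + 2) (insert (3 * s - 1, 3 * s + 2) (insert (3 * s, 7 * s + 3) (A ∪ B ∪ C)))))), Cov (18 * s + 9) m p := fun r hr hc =>
      ⟨_, mem_insert_of_mem (mem_insert_of_mem (mem_insert_of_mem (mem_insert_of_mem (mem_insert_of_mem (mem_union_right _ (mem_fam (u := fun r => 3 * r + 6) (v := fun r => 6 * s - 2 * r - 1) hr)))))), hc⟩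
    have hD1 : Cov (18 * s + 9) m (2, 8 * s + 3) →
        ∃ p ∈ (insert (2, 8 * s + 3) (insert (3, 8 * s + 1) (insert (5, 8 * s + 2) (insert (3 * s - 1, 3 * s + 2) (insert (3 * s, 7 * s + 3) (A ∪ B ∪ C)))))), Cov (18 * s + 9) m p := fun hc =>
      ⟨_, mem_insert_self _ _, hc⟩
    have hD2 : Cov (18 * s + 9) m (3, 8 * s + 1) →
        ∃ p ∈ (insert (2, 8 * s + 3) (insert (3, 8 * s + 1) (insert (5, 8 * s + 2) (insert (3 * s - 1, 3 * s + 2) (insert (3 * s, 7 * s + 3) (A ∪ B ∪ C)))))), Cov (18 * s + 9) m p := fun hc =>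
      ⟨_, mem_insert_of_mem (mem_insert_self _ _), hc⟩
    have hD3 : Cov (18 * s + 9) m (5, 8 * s + 2) →
        ∃ p ∈ (insert (2, 8 * s + 3) (insert (3, 8 * s + 1) (insert (5, 8 * s + 2) (insert (3 * s - 1, 3 * s + 2) (insert (3 * s, 7 * s + 3) (A ∪ B ∪ C)))))), Cov (18 * s + 9) m p := fun hc =>
      ⟨_, mem_insert_of_mem (mem_insert_of_mem (mem_insert_self _ _)), hc⟩
    have hD4 : Cov (18 * s + 9) m (3 * s - 1, 3 * s + 2) →
        ∃ p ∈ (insert (2, 8 * s + 3) (insert (3, 8 * s + 1) (insert (5, 8 * s + 2) (insert (3 * s - 1, 3 * s + 2) (insert (3 * s, 7 * s + 3) (A ∪ B ∪ C)))))), Cov (18 * s + 9) m p := fun hc =>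
      ⟨_, mem_insert_of_mem (mem_insert_of_mem (mem_insert_of_mem (mem_insert_self _ _))), hc⟩
    have hD5 : Cov (18 * s + 9) m (3 * s, 7 * s + 3) →
        ∃ p ∈ (insert (2, 8 * s + 3) (insert (3, 8 * s + 1) (insert (5, 8 * s + 2) (insert (3 * s - 1, 3 * s + 2) (insert (3 * s, 7 * s + 3) (A ∪ B ∪ C)))))), Cov (18 * s + 9) m p := fun hc =>
      ⟨_, mem_insert_of_mem (mem_insert_of_mem (mem_insert_of_mem (mem_insert_of_mem (mem_insert_self _ _)))), hc⟩
    by_cases c0 : m = 2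
    · exact Or.inr (hD1 (Or.inl (by (try simp only) <;> omega)))
    by_cases c1 : m = 3
    · exact Or.inr (hD2 (Or.inl (by (try simp only) <;> omega)))
    by_cases c2 : m = 5
    · exact Or.inr (hD3 (Or.inl (by (try simp only) <;> omega)))
    by_cases c3 : m = 3 * s - 1
    · exact Or.inr (hD4 (Or.inl (by (try simp only) <;> omega)))
    by_cases c4 : m = 3 * s
    · exact Or.inr (hD5 (Or.inl (by (try simp only) <;> omega)))
    by_cases c5 : m ≤ 3 * s + 1
    · rcases (by omega : m % 3 = 1 ∨ m % 3 = 2 ∨ m % 3 = 0) with h9 | h9 | h9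
      · exact Or.inr (hAm ((m - 1) / 3) (by omega) (Or.inl (by (try simp only) <;> omega)))
      · exact Or.inr (hBm ((m - 8) / 3) (by omega) (Or.inl (by (try simp only) <;> omega)))
      · exact Or.inr (hCm ((m - 6) / 3) (by omega) (Or.inl (by (try simp only) <;> omega)))
    by_cases c6 : m = 3 * s + 2
    · exact Or.inr (hD4 (Or.inr (Or.inl (by (try simp only) <;> omega))))
    by_cases c7 : m ≤ 4 * s + 3
    · exact Or.inr (hAm (4 * s + 3 - m) (by omega) (Or.inr (Or.inl (by (try simp only) <;> omega))))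
    by_cases c8 : m = 6 * s + 1
    · exact Or.inr (hD4 (Or.inr (Or.inr (Or.inl (by (try simp only) <;> omega)))))
    by_cases c9 : m = 6 * s + 3
    · exact Or.inl ⟨rfl, by omega⟩
    by_cases c10 : m ≤ 6 * s + 4
    · rcases (by omega : m % 2 = 0 ∨ m % 2 = 1) with h9 | h9
      · exact Or.inr (hAm ((m - 4 * s - 4) / 2) (by omega) (Or.inr (Or.inr (Or.inl (by (try simp only) <;> omega)))))
      · exact Or.inr (hCm ((6 * s - 1 - m) / 2) (by omega) (Or.inr (Or.inl (by (try simp only) <;> omega))))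
    by_cases c11 : m ≤ 7 * s + 2
    · exact Or.inr (hCm (m - 6 * s - 5) (by omega) (Or.inr (Or.inr (Or.inl (by (try simp only) <;> omega)))))
    by_cases c12 : m = 7 * s + 3
    · exact Or.inr (hD5 (Or.inr (Or.inl (by (try simp only) <;> omega))))
    by_cases c13 : m ≤ 8 * s
    · exact Or.inr (hBm (8 * s - m) (by omega) (Or.inr (Or.inl (by (try simp only) <;> omega))))
    by_cases c14 : m = 8 * s + 1
    · exact Or.inr (hD2 (Or.inr (Or.inl (by (try simp only) <;> omega))))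
    by_cases c15 : m = 8 * s + 2
    · exact Or.inr (hD3 (Or.inr (Or.inl (by (try simp only) <;> omega))))
    by_cases c16 : m = 8 * s + 3
    · exact Or.inr (hD1 (Or.inr (Or.inl (by (try simp only) <;> omega))))
    by_cases c17 : m = 8 * s + 4
    · exact Or.inr (hD2 (Or.inr (Or.inr (Or.inl (by (try simp only) <;> omega)))))
    by_cases c18 : m = 8 * s + 5
    · exact Or.inr (hD1 (Or.inr (Or.inr (Or.inl (by (try simp only) <;> omega)))))
    by_cases c19 : m = 8 * s + 6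
    · exact Or.inr (hD5 (Or.inr (Or.inr (Or.inr (by (try simp only) <;> omega)))))
    by_cases c20 : m = 8 * s + 7
    · exact Or.inr (hD3 (Or.inr (Or.inr (Or.inl (by (try simp only) <;> omega)))))
    rcases (by omega : m % 2 = 0 ∨ m % 2 = 1) with h9 | h9
    · exact Or.inr (hBm ((m - 8 * s - 8) / 2) (by omega) (Or.inr (Or.inr (Or.inl (by (try simp only) <;> omega)))))
    · exact Or.inr (hBm ((10 * s + 1 - m) / 2) (by omega) (Or.inr (Or.inr (Or.inr (by (try simp only) <;> omega)))))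

end Pool.Agent.Helper774.CSTS
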